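import Pool.Agent.J4H94.NRC.Final

/-!
# Efficient nonrepetitive colouring with `O(Δ²)` colours

There is a polynomial-time Monte Carlo algorithm that colours every graph `G` nonrepetitively with
at most `72 Δ(G)²` colours.

Let `L = log n + O(1)`.  The *bad events* are: the two halves of a path of order `2t < 2L` have the
same colour sequence; two vertex-disjoint paths of order `L` have the same colour sequence.  If no
bad event holds, the colouring is nonrepetitive.  The algorithm starts with a random colouring and
with a stack containing all vertices.  It repeatedly takes a vertex `u` off the stack and looks for a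
bad event containing `u` that holds; if it finds one, it recolours the vertices of the event at
random and puts them on the stack.  For a fixed sequence `B₁, …, B_s` of recoloured events, of order
`t₁, …, t_s`, the probability that the procedure makes these recolourings is at most
`∏ k^{-tᵢ}`, since given the sequence the current colouring has a density at most `∏ k^{-tᵢ}`; it
follows that the probability of at least `s` recolourings is at most `(3/2)ⁿ 2^{-s}`.  The events are
found by colour coding (random labellings with `O(L)` labels and a dynamic program over the sets of
labels), in time `2^{O(L)} = n^{O(1)}`.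
-/

namespace Pool.Agent.Results.MP_0272f9_lc.NonrepetitiveMonteCarlo

open Pool.Agent.NPC

/-- A colouring `c` of the vertices of `G` is nonrepetitive if no path `v₀ v₁ ⋯ v_{2t-1}` of `G` of
even order `2t`, `t ≥ 1`, satisfies `c(vᵢ) = c(v_{t+i})` for all `i < t`. -/
def Nonrepetitive {V : Type} (G : SimpleGraph V) (c : V → ℕ) : Prop :=
  ∀ (t : ℕ) (v : ℕ → V), 1 ≤ t → (∀ i < 2 * t, ∀ j < 2 * t, v i = v j → i = j) →
    (∀ i, i + 1 < 2 * t → G.Adj (v i) (v (i + 1))) → ∃ i < t, c (v i) ≠ c (v (t + i))

/-- The adjacency matrix of a graph on `{0, …, n-1}`, as a list of rows. -/
def adjMatrix {n : ℕ} (G : SimpleGraph (Fin n)) [DecidableRel G.Adj] : List (List Bool) :=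
  List.ofFn fun i => List.ofFn fun j => decide (G.Adj i j)

/-- The probability that a uniformly random bit string of length `m` has the property `F`. -/
noncomputable def prob (m : ℕ) (F : List Bool → Prop) : ℝ :=
  (Nat.card {r : Fin m → Bool // F (List.ofFn r)} : ℝ) / 2 ^ m

/-- **Efficient nonrepetitive colouring with `O(Δ²)` colours.**  There are a polynomial-time
computable function `A` on bit strings and a polynomial `m` with the following property.  For every
graph `G` on `n` vertices with maximum degree `Δ`, if `A` is run on (the encoding of) the adjacency
matrix of `G` and a uniformly random string of `m(n)` bits, then with probability at least `1 - 1/n`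
its output is (the encoding of) the list of the colours of the vertices in a nonrepetitive colouring
of `G` with at most `max(1, 72 Δ²)` colours.  Moreover the length of the input of `A` is bounded by a
polynomial in `n`, so that the running time is polynomial in `n`. -/
theorem result : ∃ (A : List Bool → List Bool) (m : Polynomial ℕ), PolyTime A ∧
    (∃ q : Polynomial ℕ, ∀ (n : ℕ) (G : SimpleGraph (Fin n)) [DecidableRel G.Adj]
      (r : Fin (m.eval n) → Bool), (bits (adjMatrix G, List.ofFn r)).length ≤ q.eval n) ∧
    ∀ (n : ℕ) (G : SimpleGraph (Fin n)) [DecidableRel G.Adj],
      1 - 1 / (n : ℝ) ≤ prob (m.eval n) (fun r => ∃ c : Fin n → ℕ,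
        A (bits (adjMatrix G, r)) = bits (List.ofFn c) ∧ Nonrepetitive G c ∧
          ∀ v, c v < max 1 (72 * G.maxDegree ^ 2)) := by
  refine ⟨J4H94.NRC.main, J4H94.NRC.mPoly, J4H94.NRC.main_polyTime, J4H94.NRC.input_length, ?_⟩
  intro n G _
  exact J4H94.NRC.success n G

end Pool.Agent.Results.MP_0272f9_lc.NonrepetitiveMonteCarlo
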